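import Pool.Agent.H64.SD.Seq

set_option autoImplicit false

/-!
# The discrepancy of sequences computed by programs of small width, `d ≥ 2`

A sequence `z` in `[0,1)^d` is given by its *words*: the word of the term number `n < b^m` consists of
the `m` base-`b` digits of `n` and of the first `m` base-`b` digits of each of the `d` coordinates of
`z_n`.  A nondeterministic program of width `w` reads these `(d+1) m` digits once each, in an
arbitrary fixed order, with `w` states.  For `d = 1` the van der Corput sequence, which has the optimal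
order `log N / N` of the discrepancy, is computed by programs of bounded width for all `m` (read the
digit of weight `b^i` of `n` together with the digit number `i + 1` of `z_n`).

For `d ≥ 2`: if the first `b^m` terms of `z` are computed by a program of width `w` for infinitely
many `m`, then `D_N ≥ N^(-1+κ) / (2^(d+3) b^3)` for infinitely many `N`, `κ = (2w)^(-101383) > 0`.
So the lower bound `D_N ≥ c (log N)^d / N` holds for these sequences with any `c` and any power of
`log N`.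
-/

namespace Pool.Agent.Results.MP_f4022e_nt.BoundedWidth

open MeasureTheory

/-- `B` is an axis-parallel box contained in `[0,1)^d`: a product of subintervals of `[0,1)` of any
kind (open, closed, half-open; `Set.OrdConnected` subsets of `ℝ` are exactly the intervals). -/
def IsBox {d : ℕ} (B : Set (Fin d → ℝ)) : Prop :=
  ∃ I : Fin d → Set ℝ, (∀ i, (I i).OrdConnected ∧ I i ⊆ Set.Ico 0 1) ∧ B = Set.univ.pi I

open Classical in
/-- `A_N(B)`: the number of indices `0 ≤ n < N` with `z_n ∈ B`. -/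
noncomputable def countIn {d : ℕ} (z : ℕ → Fin d → ℝ) (N : ℕ) (B : Set (Fin d → ℝ)) : ℕ :=
  ((Finset.range N).filter (fun n => z n ∈ B)).card

/-- `D_N`: the (extreme) discrepancy of the first `N` points of the sequence `z`, the supremum of
`|A_N(B) / N - λ(B)|` over all axis-parallel boxes `B` contained in `[0,1)^d`. -/
noncomputable def discrepancy {d : ℕ} (z : ℕ → Fin d → ℝ) (N : ℕ) : ENNReal :=
  ⨆ (B : Set (Fin d → ℝ)) (_ : IsBox B),
    ENNReal.ofReal |(countIn z N B : ℝ) / N - (volume B).toReal|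

/-- A nondeterministic program of width `w` which reads `k` words of `m` digits in base `b`. -/
structure Program (k b m w : ℕ) where
  /-- the order in which the digits are read: at the time `t` the digit number `i` of the word number
  `j` is read, `(j, i) = order t` -/
  order : Fin (k * m) ≃ Fin k × Fin m
  /-- the transitions at the time `t`: old state, digit, set of the possible new states -/
  step : Fin (k * m) → Fin w → Fin b → Set (Fin w)
  /-- the initial states -/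
  start : Set (Fin w)
  /-- the accepting states -/
  accept : Set (Fin w)

/-- the program accepts the digits `f`: there is a sequence of states `q 0, …, q (k m)` which it can
follow -/
def Program.Accepts {k b m w : ℕ} (Q : Program k b m w) (f : Fin k × Fin m → Fin b) : Prop :=
  ∃ q : ℕ → Fin w, q 0 ∈ Q.start ∧
    (∀ t (h : t < k * m), q (t + 1) ∈ Q.step ⟨t, h⟩ (q t) (f (Q.order ⟨t, h⟩))) ∧
    q (k * m) ∈ Q.accept

/-- `f` consists of the `m` digits of `n` (word `0`, most significant digit first) and of the first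
`m` digits of the coordinates of `z_n` (words `1, …, d`) -/
def IsWord (b m : ℕ) {d : ℕ} (z : ℕ → Fin d → ℝ) (n : ℕ) (f : Fin (d + 1) × Fin m → Fin b) : Prop :=
  (∀ i : Fin m, (f (0, i)).val = n / b ^ (m - 1 - i.val) % b) ∧
    ∀ (j : Fin d) (i : Fin m), (f (j.succ, i)).val = ⌊z n j * (b : ℝ) ^ (i.val + 1)⌋₊ % b

/-- `Q` computes the first `b^m` terms of `z`: it accepts exactly their words -/
def ComputesTerms {b m d w : ℕ} (Q : Program (d + 1) b m w) (z : ℕ → Fin d → ℝ) : Prop :=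
  ∀ f, Q.Accepts f ↔ ∃ n < b ^ m, IsWord b m z n f

theorem isWord_iff {b m d : ℕ} (hb : 0 < b) (z : ℕ → Fin d → ℝ) (n : ℕ)
    (f : Fin (d + 1) × Fin m → Fin b) : IsWord b m z n f ↔ H64.SD.wd hb z n = f := by
  constructor
  · rintro ⟨h1, h2⟩
    funext x
    obtain ⟨j, i⟩ := x
    apply Fin.ext
    refine Fin.cases ?_ (fun j => ?_) j
    · rw [h1 i]; rfl
    · rw [h2 j i]; rfl
  · rintro rfl
    exact ⟨fun i => rfl, fun j i => rfl⟩

theorem disc_le_one {d : ℕ} (z : ℕ → Fin d → ℝ) (N : ℕ) : discrepancy z N ≤ 1 := by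
  classical
  unfold discrepancy
  refine iSup₂_le fun B hB => ?_
  rw [← ENNReal.ofReal_one]
  apply ENNReal.ofReal_le_ofReal
  obtain ⟨I, hI, rfl⟩ := hB
  have h1 : (volume (Set.univ.pi I)).toReal ≤ 1 := by
    rw [volume_pi_pi, ENNReal.toReal_prod]
    refine Finset.prod_le_one (fun _ _ => ENNReal.toReal_nonneg) fun j _ => ?_
    have h2 : volume (I j) ≤ ENNReal.ofReal 1 := by
      refine (measure_mono (hI j).2).trans ?_
      rw [Real.volume_Ico, sub_zero]
    exact ENNReal.toReal_le_of_le_ofReal zero_le_one h2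
  have h0 : 0 ≤ (volume (Set.univ.pi I)).toReal := ENNReal.toReal_nonneg
  have h2 : (countIn z N (Set.univ.pi I) : ℝ) / N ≤ 1 := by
    apply div_le_one_of_le₀ _ (Nat.cast_nonneg _)
    unfold countIn
    exact_mod_cast (Finset.card_filter_le _ _).trans (by rw [Finset.card_range])
  have h3 : 0 ≤ (countIn z N (Set.univ.pi I) : ℝ) / N := by positivity
  rw [abs_le]
  constructor <;> linarith

theorem disc_ne_top {d : ℕ} (z : ℕ → Fin d → ℝ) (N : ℕ) : discrepancy z N ≠ ⊤ :=
  ne_top_of_le_ne_top ENNReal.one_ne_top (disc_le_one z N)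

theorem box_bound {d : ℕ} (z : ℕ → Fin d → ℝ) (hz : ∀ n j, 0 ≤ z n j) (N : ℕ) (hN : 0 < N)
    (y : Fin d → ℝ) (hy0 : ∀ j, 0 ≤ y j) (hy1 : ∀ j, y j ≤ 1) :
    |((((Finset.range N).filter (fun n => ∀ j, z n j < y j)).card : ℕ) : ℝ) - N * ∏ j, y j| ≤
      N * (discrepancy z N).toReal := by
  classical
  have hN0 : (0 : ℝ) < N := by exact_mod_cast hN
  set B : Set (Fin d → ℝ) := Set.univ.pi fun j => Set.Ico 0 (y j) with hB
  have hbox : IsBox B := ⟨fun j => Set.Ico 0 (y j), fun j => ⟨Set.ordConnected_Ico,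
    Set.Ico_subset_Ico_right (hy1 j)⟩, rfl⟩
  have h1 : ENNReal.ofReal |(countIn z N B : ℝ) / N - (volume B).toReal| ≤ discrepancy z N := by
    unfold discrepancy
    exact le_iSup₂ (f := fun (B : Set (Fin d → ℝ)) (_ : IsBox B) =>
      ENNReal.ofReal |(countIn z N B : ℝ) / N - (volume B).toReal|) B hbox
  have h2 := (ENNReal.ofReal_le_iff_le_toReal (disc_ne_top z N)).1 h1
  have h3 : (volume B).toReal = ∏ j, y j := by
    rw [hB, volume_pi_pi, ENNReal.toReal_prod]
    refine Finset.prod_congr rfl fun j _ => ?_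
    rw [Real.volume_Ico, sub_zero, ENNReal.toReal_ofReal (hy0 j)]
  have h4 : countIn z N B = ((Finset.range N).filter (fun n => ∀ j, z n j < y j)).card := by
    unfold countIn
    congr 1
    apply Finset.filter_congr
    intro n _
    rw [hB, Set.mem_univ_pi]
    exact forall_congr' fun j => ⟨fun h => h.2, fun h => ⟨hz n j, h⟩⟩
  rw [h3, h4] at h2
  have h5 : ((((Finset.range N).filter (fun n => ∀ j, z n j < y j)).card : ℕ) : ℝ) - N * ∏ j, y j =
      N * (((((Finset.range N).filter (fun n => ∀ j, z n j < y j)).card : ℕ) : ℝ) / N -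
        ∏ j, y j) := by
    field_simp
  rw [h5, abs_mul, abs_of_pos hN0]
  exact mul_le_mul_of_nonneg_left h2 hN0.le

theorem prod_diff {d : ℕ} (s : Finset (Fin d)) (x y : Fin d → ℝ) (δ : ℝ) (hδ : 0 ≤ δ)
    (hx0 : ∀ j, 0 ≤ x j) (hxy : ∀ j, x j ≤ y j) (hy1 : ∀ j, y j ≤ 1) (hyx : ∀ j, y j ≤ x j + δ) :
    ∏ j ∈ s, x j ≤ ∏ j ∈ s, y j ∧ ∏ j ∈ s, y j ≤ ∏ j ∈ s, x j + s.card * δ := by
  classical
  refine ⟨Finset.prod_le_prod (fun j _ => hx0 j) fun j _ => hxy j, ?_⟩
  induction s using Finset.induction_on with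
  | empty => simp
  | insert a s ha ih =>
    rw [Finset.prod_insert ha, Finset.prod_insert ha, Finset.card_insert_of_notMem ha]
    have h1 : 0 ≤ ∏ j ∈ s, x j := Finset.prod_nonneg fun j _ => hx0 j
    have h2 : ∏ j ∈ s, x j ≤ 1 := Finset.prod_le_one (fun j _ => hx0 j)
      fun j _ => (hxy j).trans (hy1 j)
    have h3 : 0 ≤ ∏ j ∈ s, y j := Finset.prod_nonneg fun j _ => (hx0 j).trans (hxy j)
    have hya := hy1 a
    have hxa := hx0 a
    have h4 : y a * ∏ j ∈ s, y j ≤ y a * (∏ j ∈ s, x j + s.card * δ) :=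
      mul_le_mul_of_nonneg_left ih ((hx0 a).trans (hxy a))
    have h5 : y a * ∏ j ∈ s, x j ≤ (x a + δ) * ∏ j ∈ s, x j :=
      mul_le_mul_of_nonneg_right (hyx a) h1
    have h6 : y a * (s.card * δ) ≤ 1 * (s.card * δ) :=
      mul_le_mul_of_nonneg_right hya (by positivity)
    have h7 : δ * ∏ j ∈ s, x j ≤ δ * 1 := mul_le_mul_of_nonneg_left h2 hδ
    push_cast
    nlinarith

/-- the main bound -/
theorem main {d b m w : ℕ} (hd : 2 ≤ d) (hb : 2 ≤ b) (Q : Program (d + 1) b m w)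
    (z : ℕ → Fin d → ℝ) (hz : ∀ n j, 0 ≤ z n j ∧ z n j < 1) (hQ : ComputesTerms Q z) :
    0 < w ∧ ∃ N, 1 ≤ N ∧ N ≤ b ^ m ∧ ((b : ℝ) ^ m) ^ ((1 : ℝ) / (2 * w) ^ 101383) ≤
      2 ^ (d + 2) * (b : ℝ) ^ 3 * (N * (discrepancy z N).toReal + (d + 1)) := by
  classical
  obtain ⟨e, rfl⟩ : ∃ e, d = e + 2 := ⟨d - 2, by omega⟩
  have hb1 : 0 < b := by omega
  have hb0 : (0 : ℝ) < b := by exact_mod_cast hb1
  set M : ℕ := b ^ m with hM
  have hM0 : 0 < M := by rw [hM]; positivity
  have hMr : ((M : ℕ) : ℝ) = (b : ℝ) ^ m := by rw [hM]; push_cast; ring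
  have hMr0 : (0 : ℝ) < (b : ℝ) ^ m := by positivity
  set A : Finset (Fin (e + 3) × Fin m → Fin b) :=
    (Finset.range M).image (fun n => H64.SD.wd hb1 z n) with hA
  have hinj : Set.InjOn (fun n => H64.SD.wd (m := m) hb1 z n) (Finset.range M : Set ℕ) := by
    intro n hn n' hn' h
    simp only [Finset.coe_range, Set.mem_Iio] at hn hn'
    have h1 := H64.SD.pt_wd_zero hb1 z n (m := m) hn
    have h2 := H64.SD.pt_wd_zero hb1 z n' (m := m) hn'
    simp only at h
    rw [h, h2] at h1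
    have h3 := (div_left_inj' hMr0.ne').1 h1
    exact_mod_cast h3.symm
  have hAcard : A.card = M := by
    rw [hA, Finset.card_image_of_injOn hinj, Finset.card_range]
  have hAne : A.Nonempty := by rw [← Finset.card_pos]; omega
  have hmem : ∀ f, f ∈ A ↔ Q.Accepts f := by
    intro f
    rw [hQ f, hA]
    simp only [Finset.mem_image, Finset.mem_range]
    exact exists_congr fun n => and_congr_right fun _ => (isWord_iff hb1 z n f).symm
  have hwpos : 0 < w := by
    obtain ⟨f, hf⟩ := hAne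
    obtain ⟨q, _⟩ := (hmem f).1 hf
    exact lt_of_le_of_lt (Nat.zero_le _) (q 0).isLt
  refine ⟨hwpos, ?_⟩
  have hAW : H64.SD.Width Q.order w A := by
    refine H64.SD.width_of_program Q.order Q.step Q.start Q.accept A (fun f => ?_) hAne
    rw [hmem f]
    constructor
    · rintro ⟨q, hq0, hq1, hq2⟩
      exact ⟨q 0, hq0, q ((e + 3) * m), hq2, q, rfl, rfl, fun t ht _ _ => hq1 t ht⟩
    · rintro ⟨q0, hq0, q1, hq1, q, hq2, hq3, hq4⟩
      refine ⟨q, by rw [hq2]; exact hq0, fun t ht => hq4 t ht (Nat.zero_le _) ht, by rw [hq3]; exact hq1⟩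
  -- the largest `N D_N`
  obtain ⟨N, hN, hNmax⟩ := Finset.exists_max_image (Finset.Icc 1 M)
    (fun N => (N : ℝ) * (discrepancy z N).toReal) ⟨1, Finset.mem_Icc.2 ⟨le_rfl, hM0⟩⟩
  obtain ⟨hN1, hN2⟩ := Finset.mem_Icc.1 hN
  refine ⟨N, hN1, hN2, ?_⟩
  have hmain := H64.SD.log_bound e m w b ((e + 3) * m) hb hwpos Q.order A hAW hAne
    (N * (discrepancy z N).toReal + ((e + 2 : ℕ) + 1)) (fun x hx0 hx1 => by
      -- the number of terms and the box
      set K : ℕ := ⌊x 0 * (b : ℝ) ^ m⌋₊ + 1 with hK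
      let y : Fin (e + 2) → ℝ := fun j => (⌊x j.succ * (b : ℝ) ^ m⌋₊ + 1) / (b : ℝ) ^ m
      have hfl : ∀ j, ⌊x j * (b : ℝ) ^ m⌋₊ < M := by
        intro j
        rw [Nat.floor_lt (mul_nonneg (hx0 j) hMr0.le), hMr]
        have := mul_lt_mul_of_pos_right (hx1 j) hMr0
        rwa [one_mul] at this
      have hKM : K ≤ M := hfl 0
      have hK1 : 1 ≤ K := by rw [hK]; omega
      have hy0 : ∀ j, 0 ≤ y j := fun j => by positivity
      have hy1 : ∀ j, y j ≤ 1 := by
        intro j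
        rw [div_le_one hMr0, ← hMr]
        exact_mod_cast hfl j.succ
      have hxy : ∀ j, x j.succ ≤ y j := by
        intro j
        rw [le_div_iff₀ hMr0]
        exact (Nat.lt_floor_add_one _).le
      have hyx : ∀ j, y j ≤ x j.succ + 1 / (b : ℝ) ^ m := by
        intro j
        show (⌊x j.succ * (b : ℝ) ^ m⌋₊ + 1) / (b : ℝ) ^ m ≤ _
        rw [add_div]
        have h1 : (⌊x j.succ * (b : ℝ) ^ m⌋₊ : ℝ) / (b : ℝ) ^ m ≤ x j.succ := by
          rw [div_le_iff₀ hMr0]
          exact Nat.floor_le (mul_nonneg (hx0 _) hMr0.le)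
        linarith
      have hcount : H64.SD.nb A x =
          ((((Finset.range K).filter (fun n => ∀ j, z n j < y j)).card : ℕ) : ℝ) := by
        unfold H64.SD.nb
        rw [hA, Finset.sum_image hinj]
        have h1 : ∀ n ∈ Finset.range M, ∏ j, (if H64.SD.pt (H64.SD.wd (m := m) hb1 z n) j ≤ x j
            then (1 : ℝ) else 0) = if n < K ∧ ∀ j, z n j < y j then (1 : ℝ) else 0 := by
          intro n hn
          have hnM := Finset.mem_range.1 hn
          rw [Fin.prod_univ_succ]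
          have h2 : (H64.SD.pt (H64.SD.wd (m := m) hb1 z n) 0 ≤ x 0) ↔ n < K := by
            rw [H64.SD.pt_wd_zero hb1 z n hnM, div_le_iff₀ hMr0, hK, Nat.lt_succ_iff,
              Nat.le_floor_iff (mul_nonneg (hx0 0) hMr0.le)]
          have h3 : ∀ j : Fin (e + 2), (H64.SD.pt (H64.SD.wd (m := m) hb1 z n) j.succ ≤ x j.succ) ↔
              z n j < y j := by
            intro j
            rw [H64.SD.pt_wd_succ hb1 z n j (hz n j).1 (hz n j).2, div_le_iff₀ hMr0,
              ← Nat.le_floor_iff (mul_nonneg (hx0 _) hMr0.le), ← Nat.lt_succ_iff,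
              Nat.floor_lt (mul_nonneg (hz n j).1 hMr0.le), lt_div_iff₀ hMr0]
            push_cast
            exact Iff.rfl
          by_cases hc : n < K ∧ ∀ j, z n j < y j
          · rw [if_pos hc, if_pos (h2.2 hc.1), one_mul]
            exact Finset.prod_eq_one fun j _ => if_pos ((h3 j).2 (hc.2 j))
          · rw [if_neg hc]
            by_cases hc1 : n < K
            · have : ∃ j, ¬ z n j < y j := by
                by_contra hno
                push Not at hno
                exact hc ⟨hc1, hno⟩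
              obtain ⟨j, hj⟩ := this
              rw [Finset.prod_eq_zero (Finset.mem_univ j) (if_neg fun h => hj ((h3 j).1 h)), mul_zero]
            · rw [if_neg (fun h => hc1 (h2.1 h)), zero_mul]
        rw [Finset.sum_congr rfl h1, ← Finset.sum_filter, Finset.sum_const, nsmul_eq_mul, mul_one]
        congr 2
        ext n
        simp only [Finset.mem_filter, Finset.mem_range]
        constructor
        · rintro ⟨_, h2, h3⟩; exact ⟨h2, h3⟩
        · rintro ⟨h2, h3⟩; exact ⟨by omega, h2, h3⟩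
      have hbb := box_bound z (fun n j => (hz n j).1) K hK1 y hy0 hy1
      have hmx := hNmax K (Finset.mem_Icc.2 ⟨hK1, hKM⟩)
      have hp := prod_diff Finset.univ (fun j : Fin (e + 2) => x j.succ) y (1 / (b : ℝ) ^ m)
        (by positivity) (fun j => hx0 _) hxy hy1 hyx
      rw [Finset.card_univ, Fintype.card_fin] at hp
      have hpy0 : 0 ≤ ∏ j, y j := Finset.prod_nonneg fun j _ => hy0 j
      have hpy1 : ∏ j, y j ≤ 1 := Finset.prod_le_one (fun j _ => hy0 j) fun j _ => hy1 j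
      have hpx0 : 0 ≤ ∏ j : Fin (e + 2), x j.succ := Finset.prod_nonneg fun j _ => hx0 _
      have hKx : (b : ℝ) ^ m * x 0 ≤ K ∧ (K : ℝ) ≤ (b : ℝ) ^ m * x 0 + 1 := by
        rw [hK]
        push_cast
        have h1 := Nat.lt_floor_add_one (x 0 * (b : ℝ) ^ m)
        have h2 := Nat.floor_le (mul_nonneg (hx0 0) hMr0.le)
        constructor <;> linarith
      rw [hcount, hAcard, hMr, Fin.prod_univ_succ]
      -- comparison of the main terms
      have hcmp1 : (b : ℝ) ^ m * (x 0 * ∏ j : Fin (e + 2), x j.succ) ≤ K * ∏ j, y j := by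
        rw [← mul_assoc]
        exact mul_le_mul hKx.1 hp.1 hpx0 (Nat.cast_nonneg _)
      have hcmp2 : K * ∏ j, y j ≤ (b : ℝ) ^ m * (x 0 * ∏ j : Fin (e + 2), x j.succ) +
          ((e + 2 : ℕ) + 1) := by
        have h1 : (K : ℝ) * ∏ j, y j ≤ ((b : ℝ) ^ m * x 0 + 1) * ∏ j, y j :=
          mul_le_mul_of_nonneg_right hKx.2 hpy0
        have h2 : (b : ℝ) ^ m * x 0 * ∏ j, y j ≤ (b : ℝ) ^ m * x 0 *
            (∏ j : Fin (e + 2), x j.succ + (e + 2 : ℕ) * (1 / (b : ℝ) ^ m)) :=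
          mul_le_mul_of_nonneg_left hp.2 (mul_nonneg hMr0.le (hx0 0))
        have h3 : (b : ℝ) ^ m * x 0 * ((e + 2 : ℕ) * (1 / (b : ℝ) ^ m)) = x 0 * (e + 2 : ℕ) := by
          field_simp
        have h4 : x 0 * ((e + 2 : ℕ) : ℝ) ≤ 1 * ((e + 2 : ℕ) : ℝ) :=
          mul_le_mul_of_nonneg_right (hx1 0).le (Nat.cast_nonneg _)
        rw [mul_add, h3] at h2
        rw [add_mul, one_mul] at h1
        linarith
      have hKd := abs_le.1 (hbb.trans hmx)
      rw [abs_le]
      constructor <;> linarith [hKd.1, hKd.2])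
  rw [hAcard, hMr] at hmain
  exact hmain

/-- asymptotics: powers beat powers of logarithms -/
theorem pow_beats (κ : ℝ) (hκ : 0 < κ) (C s c1 : ℝ) : ∃ x0 : ℝ, ∀ x : ℝ, x0 ≤ x →
    c1 + C * (Real.log x) ^ s ≤ x ^ κ := by
  have h1 : Filter.Tendsto (fun x : ℝ => x ^ κ) Filter.atTop Filter.atTop := tendsto_rpow_atTop hκ
  have h2 : ∀ᶠ x : ℝ in Filter.atTop, |Real.log x ^ s| ≤ (1 / (2 * (|C| + 1))) * |x ^ κ| := by
    have := (isLittleO_log_rpow_rpow_atTop s hκ).def (c := 1 / (2 * (|C| + 1))) (by positivity)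
    simpa [Real.norm_eq_abs] using this
  have h3 := h1.eventually_ge_atTop (2 * |c1|)
  obtain ⟨x0, hx0⟩ := Filter.eventually_atTop.1 (h2.and (h3.and (Filter.eventually_gt_atTop 0)))
  refine ⟨x0, fun x hx => ?_⟩
  obtain ⟨h4, h5, h6⟩ := hx0 x hx
  have h7 : 0 < x ^ κ := Real.rpow_pos_of_pos h6 _
  rw [abs_of_pos h7] at h4
  have h8 : C * Real.log x ^ s ≤ |C| * |Real.log x ^ s| := by
    rw [← abs_mul]; exact le_abs_self _
  have h9 : |C| * |Real.log x ^ s| ≤ |C| * ((1 / (2 * (|C| + 1))) * x ^ κ) :=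
    mul_le_mul_of_nonneg_left h4 (abs_nonneg _)
  have h10 : |C| * ((1 / (2 * (|C| + 1))) * x ^ κ) = (|C| / (|C| + 1)) * (x ^ κ / 2) := by
    have : |C| + 1 ≠ 0 := by positivity
    field_simp
  have h11 : (|C| / (|C| + 1)) * (x ^ κ / 2) ≤ 1 * (x ^ κ / 2) := by
    apply mul_le_mul_of_nonneg_right _ (by positivity)
    rw [div_le_one (by positivity)]; linarith
  have h12 := le_abs_self c1
  linarith

/-- infinitely many `N` -/
theorem infinitely {d b w : ℕ} (hd : 2 ≤ d) (hb : 2 ≤ b) (z : ℕ → Fin d → ℝ)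
    (hz : ∀ n j, 0 ≤ z n j ∧ z n j < 1)
    (hQ : ∀ m₀ : ℕ, ∃ m, m₀ ≤ m ∧ ∃ Q : Program (d + 1) b m w, ComputesTerms Q z) (N₀ : ℕ) :
    ∃ N, N₀ ≤ N ∧ 1 ≤ N ∧ (N : ℝ) ^ ((1 : ℝ) / (2 * w) ^ 101383) / (2 ^ (d + 3) * (b : ℝ) ^ 3 * N) ≤
      (discrepancy z N).toReal := by
  obtain ⟨K, hK⟩ : ∃ K : ℕ, K = 101383 := ⟨_, rfl⟩
  simp only [← hK]
  have hw : 0 < w := by
    obtain ⟨m, _, Q, hQ'⟩ := hQ 0
    exact (main hd hb Q z hz hQ').1
  have hw0 : (0 : ℝ) < w := by exact_mod_cast hw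
  have hb0 : (0 : ℝ) < b := by exact_mod_cast (by omega : 0 < b)
  set κ : ℝ := (1 : ℝ) / (2 * w) ^ K with hκ
  have hκ0 : 0 < κ := by positivity
  set c0 : ℝ := 2 ^ (d + 2) * (b : ℝ) ^ 3 with hc0
  have hc0pos : 0 < c0 := by positivity
  obtain ⟨x0, hx0⟩ := pow_beats κ hκ0 0 0 (2 * c0 * (d + 1) + c0 * (N₀ + 1 + (d + 1)))
  -- a large `m`
  have htend : Filter.Tendsto (fun m : ℕ => (b : ℝ) ^ m) Filter.atTop Filter.atTop :=
    tendsto_pow_atTop_atTop_of_one_lt (by exact_mod_cast (by omega : 1 < b))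
  obtain ⟨m₀, hm₀⟩ := Filter.eventually_atTop.1 (htend.eventually_ge_atTop x0)
  obtain ⟨m, hm, Q, hQ'⟩ := hQ m₀
  obtain ⟨_, N, hN1, hN2, hN3⟩ := main hd hb Q z hz hQ'
  rw [← hK, ← hκ] at hN3
  have hbig := hx0 ((b : ℝ) ^ m) (hm₀ m hm)
  rw [zero_mul, add_zero] at hbig
  have hN0 : (0 : ℝ) < N := by exact_mod_cast hN1
  set δ := (discrepancy z N).toReal with hδ
  have hδ1 : δ ≤ 1 := by
    rw [hδ]
    have := ENNReal.toReal_mono ENNReal.one_ne_top (disc_le_one z N)
    simpa using this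
  have hδ0 : 0 ≤ δ := ENNReal.toReal_nonneg
  have hNδ : (N : ℝ) * δ ≤ N := by nlinarith
  refine ⟨N, ?_, hN1, ?_⟩
  · have h1 : c0 * (N₀ + 1 + (d + 1)) ≤ c0 * (N + (d + 1)) := by
      have h2 : c0 * (N * δ + (d + 1)) ≤ c0 * (N + (d + 1)) :=
        mul_le_mul_of_nonneg_left (by linarith) hc0pos.le
      have h3 : (0 : ℝ) ≤ 2 * c0 * (d + 1) := by positivity
      linarith
    have h2 := le_of_mul_le_mul_left h1 hc0pos
    have h3 : (N₀ : ℝ) ≤ N := by linarith
    exact_mod_cast h3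
  · rw [div_le_iff₀ (by positivity)]
    have h1 : (N : ℝ) ^ κ ≤ ((b : ℝ) ^ m) ^ κ := by
      apply Real.rpow_le_rpow hN0.le _ hκ0.le
      exact_mod_cast hN2
    have h2 : 2 * (c0 * (d + 1)) ≤ ((b : ℝ) ^ m) ^ κ := by
      have h3 : (0 : ℝ) ≤ c0 * (N₀ + 1 + (d + 1)) := by positivity
      linarith
    have h3 : ((b : ℝ) ^ m) ^ κ ≤ 2 * (c0 * (N * δ)) := by
      have : c0 * (N * δ + (d + 1)) = c0 * (N * δ) + c0 * (d + 1) := by ring
      linarith
    calc (N : ℝ) ^ κ ≤ 2 * (c0 * (N * δ)) := h1.trans h3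
      _ = δ * (2 ^ (d + 3) * (b : ℝ) ^ 3 * N) := by rw [hc0]; ring

/-- the width of sequences of small discrepancy -/
theorem width {d b : ℕ} (hd : 2 ≤ d) (hb : 2 ≤ b) (C s : ℝ) (hs : 0 ≤ s) : ∃ m₀ : ℕ, ∀ m : ℕ,
    m₀ ≤ m → ∀ (w : ℕ) (Q : Program (d + 1) b m w) (z : ℕ → Fin d → ℝ),
      (∀ n j, 0 ≤ z n j ∧ z n j < 1) → ComputesTerms Q z →
      (∀ N, 2 ≤ N → discrepancy z N ≤ ENNReal.ofReal (C * (Real.log N) ^ s / N)) →
      (m : ℝ) ^ ((1 : ℝ) / 101384) ≤ w := by
  obtain ⟨K, hK⟩ : ∃ K : ℕ, K = 101383 := ⟨_, rfl⟩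
  have hK1 : ((1 : ℝ) / 101384) = 1 / ((K : ℝ) + 1) := by rw [hK]; norm_num
  set c0 : ℝ := 2 ^ (d + 2) * (b : ℝ) ^ 3 with hc0
  have hb0 : (0 : ℝ) < b := by exact_mod_cast (by omega : 0 < b)
  have hb1 : (1 : ℝ) < b := by exact_mod_cast (by omega : 1 < b)
  have hlb : 0 < Real.log b := Real.log_pos hb1
  have hc0pos : 0 < c0 := by positivity
  set ε : ℝ := 1 / ((K : ℝ) + 1) with hε
  have hε0 : 0 < ε := by positivity
  set c1 : ℝ := c0 * (|C| + d + 2) * (1 + Real.log b) ^ s with hc1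
  have hc1pos : 0 < c1 := by
    have : 0 < 1 + Real.log b := by linarith
    positivity
  -- asymptotics
  have hev : ∀ᶠ L : ℝ in Filter.atTop,
      Real.log c1 + s * Real.log L < L ^ ε / 2 ^ K * Real.log b ∧ 1 ≤ L := by
    have h1 : Filter.Tendsto (fun L : ℝ => L ^ ε) Filter.atTop Filter.atTop :=
      tendsto_rpow_atTop hε0
    have h2 : ∀ᶠ L : ℝ in Filter.atTop,
        |Real.log L| ≤ (Real.log b / (4 * (s + 1) * 2 ^ K)) * |L ^ ε| := by
      have := (isLittleO_log_rpow_atTop hε0).def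
        (c := Real.log b / (4 * (s + 1) * 2 ^ K)) (by positivity)
      simpa [Real.norm_eq_abs] using this
    have h3 := h1.eventually_gt_atTop (4 * 2 ^ K * (|Real.log c1| + 1) / Real.log b)
    filter_upwards [h2, h3, Filter.eventually_ge_atTop (1 : ℝ)] with L hL2 hL3 hL4
    refine ⟨?_, hL4⟩
    have hLp : 0 < L ^ ε := Real.rpow_pos_of_pos (by linarith) _
    rw [abs_of_pos hLp] at hL2
    have h4 : s * Real.log L ≤ L ^ ε / 2 ^ K * Real.log b / 4 := by
      have h5 : Real.log L ≤ (Real.log b / (4 * (s + 1) * 2 ^ K)) * L ^ ε :=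
        (le_abs_self _).trans hL2
      have h6 : s * Real.log L ≤ s * ((Real.log b / (4 * (s + 1) * 2 ^ K)) * L ^ ε) :=
        mul_le_mul_of_nonneg_left h5 hs
      have h7 : s * ((Real.log b / (4 * (s + 1) * 2 ^ K)) * L ^ ε) =
          (s / (s + 1)) * (L ^ ε / 2 ^ K * Real.log b / 4) := by
        have : (s + 1) ≠ 0 := by positivity
        field_simp
      have h8 : s / (s + 1) ≤ 1 := by
        rw [div_le_one (by positivity)]; linarith
      calc s * Real.log L ≤ (s / (s + 1)) * (L ^ ε / 2 ^ K * Real.log b / 4) := by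
            rw [← h7]; exact h6
        _ ≤ 1 * (L ^ ε / 2 ^ K * Real.log b / 4) := mul_le_mul_of_nonneg_right h8 (by positivity)
        _ = _ := one_mul _
    have h9 : Real.log c1 < L ^ ε / 2 ^ K * Real.log b / 4 := by
      rw [div_lt_iff₀ hlb] at hL3
      have := le_abs_self (Real.log c1)
      have h10 : (0 : ℝ) < 2 ^ K := by positivity
      rw [div_mul_eq_mul_div, div_div, lt_div_iff₀ (by positivity)]
      nlinarith
    have h11 : 0 < L ^ ε / 2 ^ K * Real.log b := by positivity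
    linarith
  obtain ⟨m₀, hm₀⟩ := Filter.eventually_atTop.1 (tendsto_natCast_atTop_atTop.eventually hev)
  refine ⟨max m₀ 1, fun m hm w Q z hz hQ hD => ?_⟩
  have hm1 : 1 ≤ m := (le_max_right _ _).trans hm
  obtain ⟨hL, hL1⟩ := hm₀ m ((le_max_left _ _).trans hm)
  obtain ⟨hw, N, hN1, hN2, hN3⟩ := main hd hb Q z hz hQ
  rw [← hK] at hN3
  have hw0 : (0 : ℝ) < w := by exact_mod_cast hw
  have hN0 : (0 : ℝ) < N := by exact_mod_cast hN1
  have hm0 : (0 : ℝ) < m := by exact_mod_cast hm1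
  have hmlog : Real.log ((b : ℝ) ^ m) = m * Real.log b := Real.log_pow _ _
  set L : ℝ := (m : ℝ) with hLdef
  rw [hK1]
  by_contra hcon
  push Not at hcon
  set κ : ℝ := (1 : ℝ) / (2 * w) ^ K with hκ
  have hκ0 : 0 < κ := by positivity
  -- the upper bound of `N D_N`
  have hlog1 : (1 : ℝ) ≤ 1 + Real.log b := by linarith
  have hbase : (1 : ℝ) ≤ (1 + Real.log b) * L := by nlinarith
  have hpowge : (1 : ℝ) ≤ ((1 + Real.log b) * L) ^ s := Real.one_le_rpow hbase hs
  have hup : (N : ℝ) * (discrepancy z N).toReal ≤ (|C| + 1) * ((1 + Real.log b) * L) ^ s := by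
    rcases Nat.lt_or_ge N 2 with h | h
    · have hNe : N = 1 := by omega
      have hδ1 : (discrepancy z N).toReal ≤ 1 := by
        have := ENNReal.toReal_mono ENNReal.one_ne_top (disc_le_one z N)
        simpa using this
      rw [hNe] at hδ1 ⊢
      have : (1 : ℝ) ≤ |C| + 1 := by linarith [abs_nonneg C]
      push_cast
      nlinarith
    · have h1 := hD N h
      have hN2' : (2 : ℝ) ≤ N := by exact_mod_cast h
      have hlogN0 : 0 < Real.log N := Real.log_pos (by linarith)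
      have hlogN : Real.log N ≤ L * Real.log b := by
        have h3 : Real.log N ≤ Real.log ((b : ℝ) ^ m) :=
          Real.log_le_log hN0 (by exact_mod_cast hN2)
        rwa [hmlog] at h3
      have hsp : 0 < (Real.log N) ^ s := Real.rpow_pos_of_pos hlogN0 _
      have h2 : (discrepancy z N).toReal ≤ |C| * (Real.log N) ^ s / N := by
        have h3 : discrepancy z N ≤ ENNReal.ofReal (|C| * (Real.log N) ^ s / N) := by
          refine h1.trans (ENNReal.ofReal_le_ofReal ?_)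
          gcongr
          exact le_abs_self C
        have := ENNReal.toReal_mono ENNReal.ofReal_ne_top h3
        rwa [ENNReal.toReal_ofReal (by positivity)] at this
      have h3 : (N : ℝ) * (discrepancy z N).toReal ≤ |C| * (Real.log N) ^ s := by
        rw [le_div_iff₀ hN0] at h2
        linarith
      have h4 : (Real.log N) ^ s ≤ ((1 + Real.log b) * L) ^ s := by
        apply Real.rpow_le_rpow hlogN0.le _ hs
        nlinarith
      have h5 : |C| * (Real.log N) ^ s ≤ |C| * ((1 + Real.log b) * L) ^ s :=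
        mul_le_mul_of_nonneg_left h4 (abs_nonneg _)
      linarith
  have hle2 : ((b : ℝ) ^ m) ^ κ ≤ c1 * L ^ s := by
    have h1 : (N : ℝ) * (discrepancy z N).toReal + (d + 1) ≤
        (|C| + d + 2) * ((1 + Real.log b) * L) ^ s := by
      have h2 : ((d : ℝ) + 1) ≤ (d + 1) * ((1 + Real.log b) * L) ^ s := by
        have : (0 : ℝ) ≤ d + 1 := by positivity
        nlinarith
      nlinarith
    calc ((b : ℝ) ^ m) ^ κ ≤ c0 * (N * (discrepancy z N).toReal + (d + 1)) := hN3
      _ ≤ c0 * ((|C| + d + 2) * ((1 + Real.log b) * L) ^ s) :=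
          mul_le_mul_of_nonneg_left h1 hc0pos.le
      _ = c1 * L ^ s := by
          rw [Real.mul_rpow (by linarith) (by linarith)]
          ring
  have hlog := Real.log_le_log (by positivity) hle2
  rw [Real.log_rpow (by positivity), Real.log_mul hc1pos.ne' (by positivity),
    Real.log_rpow (by positivity), hmlog] at hlog
  -- lower bound of the left side
  have hLpos : 0 < L := by linarith
  have hpow : ((w : ℝ)) ^ K < L ^ (1 - ε) := by
    have h1 : ((w : ℝ)) ^ K < (L ^ ε) ^ K := by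
      apply pow_lt_pow_left₀ hcon hw0.le
      rw [hK]; norm_num
    have h2 : (L ^ ε) ^ K = L ^ (1 - ε) := by
      rw [← Real.rpow_natCast, ← Real.rpow_mul hLpos.le]
      congr 1
      rw [hε]
      field_simp
      ring
    rw [← h2]; exact h1
  have hlow : L ^ ε / 2 ^ K < κ * L := by
    rw [hκ, mul_pow, div_mul_eq_mul_div, one_mul, div_lt_div_iff₀ (by positivity) (by positivity)]
    have h1 : L ^ ε * L ^ (1 - ε) = L := by
      rw [← Real.rpow_add hLpos]
      rw [show ε + (1 - ε) = 1 by ring, Real.rpow_one]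
    have hLe : 0 < L ^ ε := Real.rpow_pos_of_pos hLpos _
    have h2K : (0 : ℝ) < 2 ^ K := by positivity
    calc L ^ ε * (2 ^ K * (w : ℝ) ^ K) = (L ^ ε * (w : ℝ) ^ K) * 2 ^ K := by ring
      _ < (L ^ ε * L ^ (1 - ε)) * 2 ^ K := by
          apply mul_lt_mul_of_pos_right _ h2K
          exact mul_lt_mul_of_pos_left hpow hLe
      _ = L * 2 ^ K := by rw [h1]
  have hlow2 : L ^ ε / 2 ^ K * Real.log b ≤ κ * (L * Real.log b) := by
    rw [← mul_assoc]
    exact mul_le_mul_of_nonneg_right hlow.le hlb.le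
  linarith

/-- **Result.**  Let `d ≥ 2` and `b ≥ 2`, and let `z` be a sequence in `[0,1)^d`.

(1) If the first `b^m` terms of `z` are computed by a nondeterministic program of width `w`, then for
some `1 ≤ N ≤ b^m` the discrepancy `D_N` is at least
`((b^m)^κ / (2^(d+2) b^3) - (d+1)) / N`, where `κ = (2w)^(-101383)`.

(2) If for infinitely many `m` the first `b^m` terms of `z` are computed by a nondeterministic program
of width `w`, then `D_N ≥ N^(-1+κ) / (2^(d+3) b^3)` for infinitely many `N`, and for all real `c` and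
`s` (in particular for `s = d`) `D_N ≥ c (log N)^s / N` for infinitely many `N`.

(3) For all `C` and `s ≥ 0` and all large `m`: if `D_N ≤ C (log N)^s / N` for all `N ≥ 2`, then the
first `b^m` terms of `z` are not computed by a nondeterministic program of width less than
`m^(1/101384)`. -/
theorem result {d b : ℕ} (hd : 2 ≤ d) (hb : 2 ≤ b) :
    (∀ (m w : ℕ) (Q : Program (d + 1) b m w) (z : ℕ → Fin d → ℝ),
      (∀ n j, 0 ≤ z n j ∧ z n j < 1) → ComputesTerms Q z →
      ∃ N, 1 ≤ N ∧ N ≤ b ^ m ∧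
        ENNReal.ofReal ((((b : ℝ) ^ m) ^ ((1 : ℝ) / (2 * w) ^ 101383) / (2 ^ (d + 2) * (b : ℝ) ^ 3) -
          (d + 1)) / N) ≤ discrepancy z N) ∧
    (∀ (w : ℕ) (z : ℕ → Fin d → ℝ), (∀ n j, 0 ≤ z n j ∧ z n j < 1) →
      (∀ m₀ : ℕ, ∃ m, m₀ ≤ m ∧ ∃ Q : Program (d + 1) b m w, ComputesTerms Q z) →
      (∀ N₀ : ℕ, ∃ N, N₀ ≤ N ∧ 1 ≤ N ∧
        ENNReal.ofReal ((N : ℝ) ^ ((1 : ℝ) / (2 * w) ^ 101383) / (2 ^ (d + 3) * (b : ℝ) ^ 3 * N)) ≤
          discrepancy z N) ∧
      ∀ (c s : ℝ) (N₀ : ℕ), ∃ N, N₀ ≤ N ∧ 1 ≤ N ∧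
        ENNReal.ofReal (c * (Real.log N) ^ s / N) ≤ discrepancy z N) ∧
    (∀ C s : ℝ, 0 ≤ s → ∃ m₀ : ℕ, ∀ m : ℕ, m₀ ≤ m →
      ∀ (w : ℕ) (Q : Program (d + 1) b m w) (z : ℕ → Fin d → ℝ),
        (∀ n j, 0 ≤ z n j ∧ z n j < 1) → ComputesTerms Q z →
        (∀ N, 2 ≤ N → discrepancy z N ≤ ENNReal.ofReal (C * (Real.log N) ^ s / N)) →
        (m : ℝ) ^ ((1 : ℝ) / 101384) ≤ w) := by
  have hb0 : (0 : ℝ) < b := by exact_mod_cast (by omega : 0 < b)
  refine ⟨?_, ?_, fun C s hs => width hd hb C s hs⟩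
  · intro m w Q z hz hQ
    obtain ⟨_, N, hN1, hN2, hN3⟩ := main hd hb Q z hz hQ
    refine ⟨N, hN1, hN2, ?_⟩
    have hN0 : (0 : ℝ) < N := by exact_mod_cast hN1
    rw [ENNReal.ofReal_le_iff_le_toReal (disc_ne_top z N), div_le_iff₀ hN0, sub_le_iff_le_add,
      div_le_iff₀ (by positivity)]
    linarith
  · intro w z hz hQ
    have hw : 0 < w := by
      obtain ⟨m, _, Q, hQ'⟩ := hQ 0
      exact (main hd hb Q z hz hQ').1
    refine ⟨fun N₀ => ?_, fun c s N₀ => ?_⟩
    · obtain ⟨N, h1, h2, h3⟩ := infinitely hd hb z hz hQ N₀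
      exact ⟨N, h1, h2, (ENNReal.ofReal_le_iff_le_toReal (disc_ne_top z N)).2 h3⟩
    · obtain ⟨K, hK⟩ : ∃ K : ℕ, K = 101383 := ⟨_, rfl⟩
      have hw0 : (0 : ℝ) < w := by exact_mod_cast hw
      have hκ0 : (0 : ℝ) < (1 : ℝ) / (2 * w) ^ K := by positivity
      obtain ⟨x0, hx0⟩ := pow_beats ((1 : ℝ) / (2 * w) ^ K) hκ0
        (2 ^ (d + 3) * (b : ℝ) ^ 3 * c) s 0
      obtain ⟨N₁, hN₁⟩ := exists_nat_ge x0
      obtain ⟨N, h1, h2, h3⟩ := infinitely hd hb z hz hQ (max N₀ N₁)
      refine ⟨N, (le_max_left _ _).trans h1, h2, ?_⟩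
      have hN0 : (0 : ℝ) < N := by exact_mod_cast h2
      rw [ENNReal.ofReal_le_iff_le_toReal (disc_ne_top z N)]
      refine le_trans ?_ h3
      rw [← hK, div_le_div_iff₀ hN0 (by positivity)]
      have h4 : x0 ≤ N := hN₁.trans (by exact_mod_cast (le_max_right _ _).trans h1)
      have h5 := hx0 N h4
      rw [zero_add] at h5
      calc c * Real.log N ^ s * (2 ^ (d + 3) * (b : ℝ) ^ 3 * N)
          = (2 ^ (d + 3) * (b : ℝ) ^ 3 * c * Real.log N ^ s) * N := by ring
        _ ≤ (N : ℝ) ^ ((1 : ℝ) / (2 * w) ^ K) * N := mul_le_mul_of_nonneg_right h5 hN0.le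

end Pool.Agent.Results.MP_f4022e_nt.BoundedWidth
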